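import Mathlib

set_option autoImplicit false

namespace Pool.Agent.MP_d2ef9c_co.H76

/-- adjacency of the triangular lattice, on a difference vector -/
def adjB (u v : ℤ) : Bool :=
  (u == 1 && v == 0) || (u == -1 && v == 0) || (u == 0 && v == 1) || (u == 0 && v == -1) ||
  (u == 1 && v == -1) || (u == -1 && v == 1)

/-- `(a,b) - (c,d) - (e,f)` is an induced path on three vertices -/
def isP3 (a b c d e f : ℤ) : Bool :=
  adjB (a - c) (b - d) && adjB (c - e) (d - f) && !(adjB (a - e) (b - f)) && !(a == e && b == f)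

def P3free (y : ℤ → ℤ → Bool) : Prop :=
  ∀ a b c d e f : ℤ, isP3 a b c d e f = true → (y a b && y c d && y e f) = false

/-- the discharging rule -/
def F (c t l r ol om or' l2 r2 b : Bool) : ℕ :=
  cond c 0
    (cond t
      (cond (l || r) 6 (cond ((ol && om) || (om && or')) 9 (cond (ol || om || or') 6 5)))
      (cond (l && r && !b && ((l2 && !r2) || (r2 && !l2))) 3 0))

lemma F_zero (c r ol om or' l2 r2 b : Bool) : F c false false r ol om or' l2 r2 b = 0 := by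
  cases c <;> rfl

def allB (p : Bool → Bool) : Bool := p true && p false

lemma allB_spec {p : Bool → Bool} (h : allB p = true) (b : Bool) : p b = true := by
  unfold allB at h
  rw [Bool.and_eq_true] at h
  cases b
  · exact h.2
  · exact h.1

lemma orB {a b : Bool} (h : (a || b) = true) (ha : a = false) : b = true := by
  subst ha; simpa using h

lemma orF {a b : Bool} (ha : a = false) (hb : b = false) : (a || b) = false := by
  subst ha; subst hb; rfl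

def fl0 (x : ℤ → ℤ → Bool) (w : ℤ × ℤ) : ℕ :=
  F (x (w.1 + 0) (w.2 + 0)) (x (w.1 + 1) (w.2 + 0)) (x (w.1 + 0) (w.2 + 1)) (x (w.1 + 1) (w.2 + (-1))) (x (w.1 + 1) (w.2 + 1)) (x (w.1 + 2) (w.2 + 0)) (x (w.1 + 2) (w.2 + (-1))) (x (w.1 + (-1)) (w.2 + 1)) (x (w.1 + 0) (w.2 + (-1))) (x (w.1 + (-1)) (w.2 + 0))

def fl1 (x : ℤ → ℤ → Bool) (w : ℤ × ℤ) : ℕ :=
  F (x (w.1 + 0) (w.2 + 0)) (x (w.1 + 0) (w.2 + 1)) (x (w.1 + (-1)) (w.2 + 1)) (x (w.1 + 1) (w.2 + 0)) (x (w.1 + (-1)) (w.2 + 2)) (x (w.1 + 0) (w.2 + 2)) (x (w.1 + 1) (w.2 + 1)) (x (w.1 + (-1)) (w.2 + 0)) (x (w.1 + 1) (w.2 + (-1))) (x (w.1 + 0) (w.2 + (-1)))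

def fl2 (x : ℤ → ℤ → Bool) (w : ℤ × ℤ) : ℕ :=
  F (x (w.1 + 0) (w.2 + 0)) (x (w.1 + (-1)) (w.2 + 1)) (x (w.1 + (-1)) (w.2 + 0)) (x (w.1 + 0) (w.2 + 1)) (x (w.1 + (-2)) (w.2 + 1)) (x (w.1 + (-2)) (w.2 + 2)) (x (w.1 + (-1)) (w.2 + 2)) (x (w.1 + 0) (w.2 + (-1))) (x (w.1 + 1) (w.2 + 0)) (x (w.1 + 1) (w.2 + (-1)))

def fl3 (x : ℤ → ℤ → Bool) (w : ℤ × ℤ) : ℕ :=
  F (x (w.1 + 0) (w.2 + 0)) (x (w.1 + (-1)) (w.2 + 0)) (x (w.1 + 0) (w.2 + (-1))) (x (w.1 + (-1)) (w.2 + 1)) (x (w.1 + (-1)) (w.2 + (-1))) (x (w.1 + (-2)) (w.2 + 0)) (x (w.1 + (-2)) (w.2 + 1)) (x (w.1 + 1) (w.2 + (-1))) (x (w.1 + 0) (w.2 + 1)) (x (w.1 + 1) (w.2 + 0))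

def fl4 (x : ℤ → ℤ → Bool) (w : ℤ × ℤ) : ℕ :=
  F (x (w.1 + 0) (w.2 + 0)) (x (w.1 + 0) (w.2 + (-1))) (x (w.1 + 1) (w.2 + (-1))) (x (w.1 + (-1)) (w.2 + 0)) (x (w.1 + 1) (w.2 + (-2))) (x (w.1 + 0) (w.2 + (-2))) (x (w.1 + (-1)) (w.2 + (-1))) (x (w.1 + 1) (w.2 + 0)) (x (w.1 + (-1)) (w.2 + 1)) (x (w.1 + 0) (w.2 + 1))

def fl5 (x : ℤ → ℤ → Bool) (w : ℤ × ℤ) : ℕ :=
  F (x (w.1 + 0) (w.2 + 0)) (x (w.1 + 1) (w.2 + (-1))) (x (w.1 + 1) (w.2 + 0)) (x (w.1 + 0) (w.2 + (-1))) (x (w.1 + 2) (w.2 + (-1))) (x (w.1 + 2) (w.2 + (-2))) (x (w.1 + 1) (w.2 + (-2))) (x (w.1 + 0) (w.2 + 1)) (x (w.1 + (-1)) (w.2 + 0)) (x (w.1 + (-1)) (w.2 + 1))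

def chk : Bool :=
  allB fun c =>
  allB fun n0 =>
  allB fun n1 =>
  allB fun n2 => (n0 && c && n2) || (n0 && n1 && n2) ||
  allB fun n3 => (n0 && c && n3) || (n1 && c && n3) || (n1 && n2 && n3) ||
  allB fun n4 => (n0 && c && n4) || (n1 && c && n4) || (n2 && c && n4) || (n2 && n3 && n4) ||
  allB fun n5 => (n1 && c && n5) || (n2 && c && n5) || (n3 && c && n5) || (n1 && n0 && n5) || (n3 && n4 && n5) || (n0 && n5 && n4) ||
  allB fun a0 => (c && n0 && a0) || (n1 && n0 && a0) || (n5 && n0 && a0) ||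
  allB fun b0 => (c && n0 && b0) || (n5 && n0 && b0) || (c && n1 && b0) || (n2 && n1 && b0) || (n1 && b0 && a0) ||
  allB fun a1 => (c && n1 && a1) || (n0 && n1 && a1) || (n2 && n1 && a1) || (n0 && b0 && a1) || (a0 && b0 && a1) ||
  allB fun b1 => (c && n1 && b1) || (n0 && n1 && b1) || (b0 && n1 && b1) || (c && n2 && b1) || (n3 && n2 && b1) || (b0 && a1 && b1) || (n2 && b1 && a1) ||
  allB fun a2 => (c && n2 && a2) || (n1 && n2 && a2) || (n3 && n2 && a2) || (n1 && b1 && a2) || (a1 && b1 && a2) ||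
  allB fun b2 => (c && n2 && b2) || (n1 && n2 && b2) || (b1 && n2 && b2) || (c && n3 && b2) || (n4 && n3 && b2) || (b1 && a2 && b2) || (n3 && b2 && a2) ||
  allB fun a3 => (c && n3 && a3) || (n2 && n3 && a3) || (n4 && n3 && a3) || (n2 && b2 && a3) || (a2 && b2 && a3) ||
  allB fun b3 => (c && n3 && b3) || (n2 && n3 && b3) || (b2 && n3 && b3) || (c && n4 && b3) || (n5 && n4 && b3) || (b2 && a3 && b3) || (n4 && b3 && a3) ||
  allB fun a4 => (c && n4 && a4) || (n3 && n4 && a4) || (n5 && n4 && a4) || (n3 && b3 && a4) || (a3 && b3 && a4) ||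
  allB fun b4 => (c && n4 && b4) || (n3 && n4 && b4) || (b3 && n4 && b4) || (c && n5 && b4) || (n0 && n5 && b4) || (b3 && a4 && b4) || (n5 && b4 && a4) ||
  allB fun a5 => (c && n5 && a5) || (n0 && n5 && a5) || (n4 && n5 && a5) || (n4 && b4 && a5) || (a4 && b4 && a5) ||
  allB fun b5 => (c && n0 && b5) || (n1 && n0 && b5) || (b0 && n0 && b5) || (c && n5 && b5) || (n4 && n5 && b5) || (b4 && n5 && b5) || (b0 && a0 && b5) || (b4 && a5 && b5) || (n0 && b5 && a5) || (n5 && b5 && a0) || (a0 && b5 && a5) ||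
  Nat.ble ((cond c 54 0) + (F c n0 n1 n5 b0 a0 b5 n2 n4 n3 + F c n1 n2 n0 b1 a1 b0 n3 n5 n4 + F c n2 n3 n1 b2 a2 b1 n4 n0 n5 + F c n3 n4 n2 b3 a3 b2 n5 n1 n0 + F c n4 n5 n3 b4 a4 b3 n0 n2 n1 + F c n5 n0 n4 b5 a5 b4 n1 n3 n2)) (24 + (F n0 c n5 n1 n4 n3 n2 b5 b0 a0 + F n1 c n0 n2 n5 n4 n3 b0 b1 a1 + F n2 c n1 n3 n0 n5 n4 b1 b2 a2 + F n3 c n2 n4 n1 n0 n5 b2 b3 a3 + F n4 c n3 n5 n2 n1 n0 b3 b4 a4 + F n5 c n4 n0 n3 n2 n1 b4 b5 a5))

lemma chk_true : chk = true := by decide +kernel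

lemma loc (y : ℤ → ℤ → Bool) (hy : P3free y) :
    (cond (y 0 0) 54 0) + (F (y 0 0) (y 1 0) (y 0 1) (y 1 (-1)) (y 1 1) (y 2 0) (y 2 (-1)) (y (-1) 1) (y 0 (-1)) (y (-1) 0) +
      F (y 0 0) (y 0 1) (y (-1) 1) (y 1 0) (y (-1) 2) (y 0 2) (y 1 1) (y (-1) 0) (y 1 (-1)) (y 0 (-1)) +
      F (y 0 0) (y (-1) 1) (y (-1) 0) (y 0 1) (y (-2) 1) (y (-2) 2) (y (-1) 2) (y 0 (-1)) (y 1 0) (y 1 (-1)) +
      F (y 0 0) (y (-1) 0) (y 0 (-1)) (y (-1) 1) (y (-1) (-1)) (y (-2) 0) (y (-2) 1) (y 1 (-1)) (y 0 1) (y 1 0) +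
      F (y 0 0) (y 0 (-1)) (y 1 (-1)) (y (-1) 0) (y 1 (-2)) (y 0 (-2)) (y (-1) (-1)) (y 1 0) (y (-1) 1) (y 0 1) +
      F (y 0 0) (y 1 (-1)) (y 1 0) (y 0 (-1)) (y 2 (-1)) (y 2 (-2)) (y 1 (-2)) (y 0 1) (y (-1) 0) (y (-1) 1)) ≤
    24 + (F (y 1 0) (y 0 0) (y 1 (-1)) (y 0 1) (y 0 (-1)) (y (-1) 0) (y (-1) 1) (y 2 (-1)) (y 1 1) (y 2 0) +
      F (y 0 1) (y 0 0) (y 1 0) (y (-1) 1) (y 1 (-1)) (y 0 (-1)) (y (-1) 0) (y 1 1) (y (-1) 2) (y 0 2) +
      F (y (-1) 1) (y 0 0) (y 0 1) (y (-1) 0) (y 1 0) (y 1 (-1)) (y 0 (-1)) (y (-1) 2) (y (-2) 1) (y (-2) 2) +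
      F (y (-1) 0) (y 0 0) (y (-1) 1) (y 0 (-1)) (y 0 1) (y 1 0) (y 1 (-1)) (y (-2) 1) (y (-1) (-1)) (y (-2) 0) +
      F (y 0 (-1)) (y 0 0) (y (-1) 0) (y 1 (-1)) (y (-1) 1) (y 0 1) (y 1 0) (y (-1) (-1)) (y 1 (-2)) (y 0 (-2)) +
      F (y 1 (-1)) (y 0 0) (y 0 (-1)) (y 1 0) (y (-1) 0) (y (-1) 1) (y 0 1) (y 1 (-2)) (y 2 (-1)) (y 2 (-2))) := by
  have h := chk_true
  unfold chk at h
  replace h := allB_spec h (y 0 0)
  replace h := allB_spec h (y 1 0)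
  replace h := allB_spec h (y 0 1)
  replace h := allB_spec h (y (-1) 1)
  replace h := orB h (orF (hy 1 0 0 0 (-1) 1 (by decide)) (hy 1 0 0 1 (-1) 1 (by decide)))
  replace h := allB_spec h (y (-1) 0)
  replace h := orB h (orF (orF (hy 1 0 0 0 (-1) 0 (by decide)) (hy 0 1 0 0 (-1) 0 (by decide))) (hy 0 1 (-1) 1 (-1) 0 (by decide)))
  replace h := allB_spec h (y 0 (-1))
  replace h := orB h (orF (orF (orF (hy 1 0 0 0 0 (-1) (by decide)) (hy 0 1 0 0 0 (-1) (by decide))) (hy (-1) 1 0 0 0 (-1) (by decide))) (hy (-1) 1 (-1) 0 0 (-1) (by decide)))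
  replace h := allB_spec h (y 1 (-1))
  replace h := orB h (orF (orF (orF (orF (orF (hy 0 1 0 0 1 (-1) (by decide)) (hy (-1) 1 0 0 1 (-1) (by decide))) (hy (-1) 0 0 0 1 (-1) (by decide))) (hy 0 1 1 0 1 (-1) (by decide))) (hy (-1) 0 0 (-1) 1 (-1) (by decide))) (hy 1 0 1 (-1) 0 (-1) (by decide)))
  replace h := allB_spec h (y 2 0)
  replace h := orB h (orF (orF (hy 0 0 1 0 2 0 (by decide)) (hy 0 1 1 0 2 0 (by decide))) (hy 1 (-1) 1 0 2 0 (by decide)))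
  replace h := allB_spec h (y 1 1)
  replace h := orB h (orF (orF (orF (orF (hy 0 0 1 0 1 1 (by decide)) (hy 1 (-1) 1 0 1 1 (by decide))) (hy 0 0 0 1 1 1 (by decide))) (hy (-1) 1 0 1 1 1 (by decide))) (hy 0 1 1 1 2 0 (by decide)))
  replace h := allB_spec h (y 0 2)
  replace h := orB h (orF (orF (orF (orF (hy 0 0 0 1 0 2 (by decide)) (hy 1 0 0 1 0 2 (by decide))) (hy (-1) 1 0 1 0 2 (by decide))) (hy 1 0 1 1 0 2 (by decide))) (hy 2 0 1 1 0 2 (by decide)))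
  replace h := allB_spec h (y (-1) 2)
  replace h := orB h (orF (orF (orF (orF (orF (orF (hy 0 0 0 1 (-1) 2 (by decide)) (hy 1 0 0 1 (-1) 2 (by decide))) (hy 1 1 0 1 (-1) 2 (by decide))) (hy 0 0 (-1) 1 (-1) 2 (by decide))) (hy (-1) 0 (-1) 1 (-1) 2 (by decide))) (hy 1 1 0 2 (-1) 2 (by decide))) (hy (-1) 1 (-1) 2 0 2 (by decide)))
  replace h := allB_spec h (y (-2) 2)
  replace h := orB h (orF (orF (orF (orF (hy 0 0 (-1) 1 (-2) 2 (by decide)) (hy 0 1 (-1) 1 (-2) 2 (by decide))) (hy (-1) 0 (-1) 1 (-2) 2 (by decide))) (hy 0 1 (-1) 2 (-2) 2 (by decide))) (hy 0 2 (-1) 2 (-2) 2 (by decide)))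
  replace h := allB_spec h (y (-2) 1)
  replace h := orB h (orF (orF (orF (orF (orF (orF (hy 0 0 (-1) 1 (-2) 1 (by decide)) (hy 0 1 (-1) 1 (-2) 1 (by decide))) (hy (-1) 2 (-1) 1 (-2) 1 (by decide))) (hy 0 0 (-1) 0 (-2) 1 (by decide))) (hy 0 (-1) (-1) 0 (-2) 1 (by decide))) (hy (-1) 2 (-2) 2 (-2) 1 (by decide))) (hy (-1) 0 (-2) 1 (-2) 2 (by decide)))
  replace h := allB_spec h (y (-2) 0)
  replace h := orB h (orF (orF (orF (orF (hy 0 0 (-1) 0 (-2) 0 (by decide)) (hy (-1) 1 (-1) 0 (-2) 0 (by decide))) (hy 0 (-1) (-1) 0 (-2) 0 (by decide))) (hy (-1) 1 (-2) 1 (-2) 0 (by decide))) (hy (-2) 2 (-2) 1 (-2) 0 (by decide)))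
  replace h := allB_spec h (y (-1) (-1))
  replace h := orB h (orF (orF (orF (orF (orF (orF (hy 0 0 (-1) 0 (-1) (-1) (by decide)) (hy (-1) 1 (-1) 0 (-1) (-1) (by decide))) (hy (-2) 1 (-1) 0 (-1) (-1) (by decide))) (hy 0 0 0 (-1) (-1) (-1) (by decide))) (hy 1 (-1) 0 (-1) (-1) (-1) (by decide))) (hy (-2) 1 (-2) 0 (-1) (-1) (by decide))) (hy 0 (-1) (-1) (-1) (-2) 0 (by decide)))
  replace h := allB_spec h (y 0 (-2))
  replace h := orB h (orF (orF (orF (orF (hy 0 0 0 (-1) 0 (-2) (by decide)) (hy (-1) 0 0 (-1) 0 (-2) (by decide))) (hy 1 (-1) 0 (-1) 0 (-2) (by decide))) (hy (-1) 0 (-1) (-1) 0 (-2) (by decide))) (hy (-2) 0 (-1) (-1) 0 (-2) (by decide)))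
  replace h := allB_spec h (y 1 (-2))
  replace h := orB h (orF (orF (orF (orF (orF (orF (hy 0 0 0 (-1) 1 (-2) (by decide)) (hy (-1) 0 0 (-1) 1 (-2) (by decide))) (hy (-1) (-1) 0 (-1) 1 (-2) (by decide))) (hy 0 0 1 (-1) 1 (-2) (by decide))) (hy 1 0 1 (-1) 1 (-2) (by decide))) (hy (-1) (-1) 0 (-2) 1 (-2) (by decide))) (hy 1 (-1) 1 (-2) 0 (-2) (by decide)))
  replace h := allB_spec h (y 2 (-2))
  replace h := orB h (orF (orF (orF (orF (hy 0 0 1 (-1) 2 (-2) (by decide)) (hy 1 0 1 (-1) 2 (-2) (by decide))) (hy 0 (-1) 1 (-1) 2 (-2) (by decide))) (hy 0 (-1) 1 (-2) 2 (-2) (by decide))) (hy 0 (-2) 1 (-2) 2 (-2) (by decide)))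
  replace h := allB_spec h (y 2 (-1))
  replace h := orB h (orF (orF (orF (orF (orF (orF (orF (orF (orF (orF (hy 0 0 1 0 2 (-1) (by decide)) (hy 0 1 1 0 2 (-1) (by decide))) (hy 1 1 1 0 2 (-1) (by decide))) (hy 0 0 1 (-1) 2 (-1) (by decide))) (hy 0 (-1) 1 (-1) 2 (-1) (by decide))) (hy 1 (-2) 1 (-1) 2 (-1) (by decide))) (hy 1 1 2 0 2 (-1) (by decide))) (hy 1 (-2) 2 (-2) 2 (-1) (by decide))) (hy 1 0 2 (-1) 2 (-2) (by decide))) (hy 1 (-1) 2 (-1) 2 0 (by decide))) (hy 2 0 2 (-1) 2 (-2) (by decide)))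
  exact Nat.le_of_ble_eq_true h

lemma P3free_shift {x : ℤ → ℤ → Bool} (hx : P3free x) (i j : ℤ) :
    P3free (fun u v => x (i + u) (j + v)) := by
  intro a b c d e f h
  apply hx
  have e1 : (i + a == i + e) = (a == e) := by
    rw [Bool.eq_iff_iff]; simp
  have e2 : (j + b == j + f) = (b == f) := by
    rw [Bool.eq_iff_iff]; simp
  unfold isP3 at h ⊢
  simp only [add_sub_add_left_eq_sub, e1, e2]
  exact h

lemma loc' {x : ℤ → ℤ → Bool} (hx : P3free x) (w : ℤ × ℤ) :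
    cond (x w.1 w.2) 54 0 + (fl0 x w + fl1 x w + fl2 x w + fl3 x w + fl4 x w + fl5 x w) ≤
    24 + (fl3 x (w + (1, 0)) + fl4 x (w + (0, 1)) + fl5 x (w + (-1, 1)) + fl0 x (w + (-1, 0)) +
      fl1 x (w + (0, -1)) + fl2 x (w + (1, -1))) := by
  have h := loc _ (P3free_shift hx w.1 w.2)
  simp only [fl0, fl1, fl2, fl3, fl4, fl5, Prod.fst_add, Prod.snd_add, add_assoc, Int.reduceAdd,
    Int.reduceNeg, add_neg_cancel, neg_add_cancel, add_zero] at h ⊢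
  exact h

lemma sum_shift_le (B : Finset (ℤ × ℤ)) (g : ℤ × ℤ → ℕ) (hg : ∀ w, w ∉ B → g w = 0) (v : ℤ × ℤ) :
    ∑ w ∈ B, g (w + v) ≤ ∑ w ∈ B, g w := by
  classical
  have h1 : ∑ w ∈ B, g (w + v) = ∑ u ∈ B.image (· + v), g u := by
    rw [Finset.sum_image]
    intro a _ b _ h
    exact add_right_cancel h
  rw [h1]
  calc ∑ u ∈ B.image (· + v), g u ≤ ∑ u ∈ B.image (· + v) ∪ B, g u :=
        Finset.sum_le_sum_of_subset Finset.subset_union_left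
    _ = ∑ u ∈ B, g u := by
        symm
        apply Finset.sum_subset Finset.subset_union_right
        intro u _ hu
        exact hg u hu

/-- The global discharging bound. -/
lemma discharge {x : ℤ → ℤ → Bool} (hx : P3free x) (B : Finset (ℤ × ℤ))
    (hB : ∀ w : ℤ × ℤ, w ∉ B → ∀ u v : ℤ, adjB u v = true → x (w.1 + u) (w.2 + v) = false) :
    54 * (B.filter (fun w => x w.1 w.2 = true)).card ≤ 24 * B.card := by
  have h0 : ∀ w, w ∉ B → fl0 x w = 0 := fun w hw => by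
    unfold fl0; rw [hB w hw 1 0 (by decide), hB w hw 0 1 (by decide)]; exact F_zero ..
  have h1 : ∀ w, w ∉ B → fl1 x w = 0 := fun w hw => by
    unfold fl1; rw [hB w hw 0 1 (by decide), hB w hw (-1) 1 (by decide)]; exact F_zero ..
  have h2 : ∀ w, w ∉ B → fl2 x w = 0 := fun w hw => by
    unfold fl2; rw [hB w hw (-1) 1 (by decide), hB w hw (-1) 0 (by decide)]; exact F_zero ..
  have h3 : ∀ w, w ∉ B → fl3 x w = 0 := fun w hw => by
    unfold fl3; rw [hB w hw (-1) 0 (by decide), hB w hw 0 (-1) (by decide)]; exact F_zero ..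
  have h4 : ∀ w, w ∉ B → fl4 x w = 0 := fun w hw => by
    unfold fl4; rw [hB w hw 0 (-1) (by decide), hB w hw 1 (-1) (by decide)]; exact F_zero ..
  have h5 : ∀ w, w ∉ B → fl5 x w = 0 := fun w hw => by
    unfold fl5; rw [hB w hw 1 (-1) (by decide), hB w hw 1 0 (by decide)]; exact F_zero ..
  have hs := Finset.sum_le_sum (s := B) (fun w _ => loc' hx w)
  simp only [Finset.sum_add_distrib, Finset.sum_const, smul_eq_mul] at hs
  have k0 := sum_shift_le B _ h0 (-1, 0)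
  have k1 := sum_shift_le B _ h1 (0, -1)
  have k2 := sum_shift_le B _ h2 (1, -1)
  have k3 := sum_shift_le B _ h3 (1, 0)
  have k4 := sum_shift_le B _ h4 (0, 1)
  have k5 := sum_shift_le B _ h5 (-1, 1)
  have hc : ∑ w ∈ B, cond (x w.1 w.2) 54 0 = 54 * (B.filter (fun w => x w.1 w.2 = true)).card := by
    rw [Finset.card_filter, Finset.mul_sum]
    apply Finset.sum_congr rfl
    intro w _
    cases x w.1 w.2 <;> simp
  omega

/-- The triangle as a finite set. -/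
def tri (n : ℕ) : Finset (ℤ × ℤ) :=
  (Finset.range (n + 1)).biUnion
    (fun k => (Finset.range (k + 1)).image (fun i : ℕ => ((i : ℤ), (k : ℤ) - i)))

lemma mem_tri (n : ℕ) (p : ℤ × ℤ) : p ∈ tri n ↔ 0 ≤ p.1 ∧ 0 ≤ p.2 ∧ p.1 + p.2 ≤ (n : ℤ) := by
  unfold tri
  simp only [Finset.mem_biUnion, Finset.mem_range, Finset.mem_image]
  constructor
  · rintro ⟨k, hk, i, hi, rfl⟩
    simp only
    omega
  · rintro ⟨h1, h2, h3⟩
    refine ⟨(p.1 + p.2).toNat, by omega, p.1.toNat, by omega, ?_⟩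
    ext
    · simp only; omega
    · simp only; omega

lemma card_tri (n : ℕ) : 2 * (tri n).card = (n + 1) * (n + 2) := by
  unfold tri
  rw [Finset.card_biUnion]
  · have : ∀ k ∈ Finset.range (n + 1),
        ((Finset.range (k + 1)).image (fun i : ℕ => ((i : ℤ), (k : ℤ) - i))).card = k + 1 := by
      intro k _
      rw [Finset.card_image_of_injective, Finset.card_range]
      intro a b h
      have := congrArg Prod.fst h
      simpa using this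
    rw [Finset.sum_congr rfl this]
    induction n with
    | zero => simp
    | succ m ih =>
      rw [Finset.sum_range_succ, mul_add, ih]
      · ring
      · intro k _
        rw [Finset.card_image_of_injective, Finset.card_range]
        intro a b h
        have := congrArg Prod.fst h
        simpa using this
  · intro a _ b _ hab
    rw [Function.onFun, Finset.disjoint_left]
    intro p hp hq
    simp only [Finset.mem_image] at hp hq
    obtain ⟨i, -, rfl⟩ := hp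
    obtain ⟨j, -, h⟩ := hq
    have h1 := congrArg Prod.fst h
    have h2 := congrArg Prod.snd h
    simp only at h1 h2
    omega

/-- The periodic pattern of density 4/9. -/
def patN (a b : ℕ) : Bool := Nat.testBit 1854362516596397595798067 (a * 9 + b)

def pat (x y : ℤ) : Bool := patN (x % 9).toNat (y % 9).toNat

lemma pat_congr {x x' y y' : ℤ} (hx : x % 9 = x' % 9) (hy : y % 9 = y' % 9) :
    pat x y = pat x' y' := by
  unfold pat; rw [hx, hy]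

def dirs : List (ℤ × ℤ) := [(1, 0), (-1, 0), (0, 1), (0, -1), (1, -1), (-1, 1)]

lemma mem_dirs {u v : ℤ} (h : adjB u v = true) : (u, v) ∈ dirs := by
  unfold adjB at h
  simp only [Bool.or_eq_true, Bool.and_eq_true, beq_iff_eq] at h
  unfold dirs
  rcases h with ((((⟨rfl, rfl⟩ | ⟨rfl, rfl⟩) | ⟨rfl, rfl⟩) | ⟨rfl, rfl⟩) | ⟨rfl, rfl⟩) | ⟨rfl, rfl⟩ <;>
    simp

lemma pat_chk : ∀ c : Fin 9, ∀ d : Fin 9, ∀ p ∈ dirs, ∀ q ∈ dirs,
    (adjB (p.1 + q.1) (p.2 + q.2) || (p.1 + q.1 == 0 && p.2 + q.2 == 0) ||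
      !(pat ((c : ℕ) + p.1) ((d : ℕ) + p.2) && pat (c : ℕ) (d : ℕ) &&
        pat ((c : ℕ) - q.1) ((d : ℕ) - q.2))) = true := by
  decide +kernel

lemma pat_P3free : P3free pat := by
  intro a b c d e f h
  unfold isP3 at h
  simp only [Bool.and_eq_true, Bool.not_eq_true'] at h
  obtain ⟨⟨⟨h1, h2⟩, h3⟩, h4⟩ := h
  have hc : (c % 9).toNat < 9 := by omega
  have hd : (d % 9).toNat < 9 := by omega
  have k := pat_chk ⟨_, hc⟩ ⟨_, hd⟩ _ (mem_dirs h1) _ (mem_dirs h2)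
  simp only at k
  have e1 : a - c + (c - e) = a - e := by ring
  have e2 : b - d + (d - f) = b - f := by ring
  rw [e1, e2, h3] at k
  have e3 : (a - e == 0 && b - f == 0) = false := by
    rw [← h4, Bool.eq_iff_iff]; simp [sub_eq_zero]
  rw [e3] at k
  rw [pat_congr (x := a) (y := b) (x' := ((c % 9).toNat : ℤ) + (a - c))
      (y' := ((d % 9).toNat : ℤ) + (b - d)) (by omega) (by omega),
    pat_congr (x := c) (y := d) (x' := ((c % 9).toNat : ℤ))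
      (y' := ((d % 9).toNat : ℤ)) (by omega) (by omega),
    pat_congr (x := e) (y := f) (x' := ((c % 9).toNat : ℤ) - (c - e))
      (y' := ((d % 9).toNat : ℤ) - (d - f)) (by omega) (by omega)]
  simp only [Bool.false_or, Bool.or_self, Bool.not_eq_true'] at k
  exact k

lemma count_chk : ∀ c : Fin 9, ∀ d : Fin 9,
    ((Finset.univ : Finset (Fin 9 × Fin 9)).filter
      (fun st => pat ((st.1 : ℕ) + ((c : ℕ) : ℤ)) ((st.2 : ℕ) + ((d : ℕ) : ℤ)) = true)).card = 36 := by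
  decide +kernel

lemma count_shifts (x y : ℤ) :
    ((Finset.univ : Finset (Fin 9 × Fin 9)).filter
      (fun st => pat ((st.1 : ℕ) + x) ((st.2 : ℕ) + y) = true)).card = 36 := by
  have hc : (x % 9).toNat < 9 := by omega
  have hd : (y % 9).toNat < 9 := by omega
  rw [← count_chk ⟨_, hc⟩ ⟨_, hd⟩]
  congr 1
  apply Finset.filter_congr
  intro st _
  rw [pat_congr (x' := (st.1 : ℕ) + (((x % 9).toNat : ℕ) : ℤ))
    (y' := (st.2 : ℕ) + (((y % 9).toNat : ℕ) : ℤ)) (by omega) (by omega)]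

end Pool.Agent.MP_d2ef9c_co.H76
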